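import Pool.Agent.helper59.GF.Spec

set_option autoImplicit false
set_option linter.unusedVariables false

namespace Pool.Agent.GF

lemma EMV_sum (k : ℕ) (l : Fin k → ℝ) (x : Fin k → ℕ → ℝ) (T : ℕ → ℝ) (hl : ∑ q, l q = 1)
    (hT : ∀ n, T n = -∑ q, l q * x q n) (n : ℕ) :
    ∑ q, l q * GG T (x q) n = -(T n ^ 2 - T 0 ^ 2) / 4 := by
  induction n with
  | zero => simp [GG]
  | succ n ih =>
    have h1 : ∑ q, l q * GG T (x q) (n + 1) = ∑ q, l q * GG T (x q) n +
        (T n + T (n + 1)) / 2 * ((∑ q, l q * x q (n + 1)) - (∑ q, l q * x q n) +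
          (∑ q, l q) * ((T (n + 1) - T n) / 2)) := by
      rw [← Finset.sum_sub_distrib, Finset.sum_mul, ← Finset.sum_add_distrib, Finset.mul_sum,
        ← Finset.sum_add_distrib]
      refine Finset.sum_congr rfl fun q _ => ?_
      unfold GG
      rw [Finset.sum_range_succ]
      ring
    have h2 := hT n
    have h3 := hT (n + 1)
    rw [h1, ih, hl, show ∑ q, l q * x q (n + 1) = -T (n + 1) by rw [h3]; ring,
      show ∑ q, l q * x q n = -T n by rw [h2]; ring]
    ring

theorem EMV : EMV_stmt := by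
  intro k l x T hl hT n n'
  have h1 := EMV_sum k l x T hl hT n
  have h2 := EMV_sum k l x T hl hT n'
  have h3 : ∑ q, l q * (GG T (x q) n' - GG T (x q) n) =
      ∑ q, l q * GG T (x q) n' - ∑ q, l q * GG T (x q) n := by
    rw [← Finset.sum_sub_distrib]
    exact Finset.sum_congr rfl fun q _ => by ring
  rw [h3, h1, h2]
  ring

end Pool.Agent.GF
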