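import Pool.Agent.helper59.GF.Spec

set_option autoImplicit false
set_option linter.unusedVariables false

namespace Pool.Agent.GF

theorem LVM (hLVL : LVL_stmt) : LVM_stmt := by
  intro p s hs he A
  obtain ⟨_, h⟩ := hLVL p s hs
  have hA : ∀ Y : Fin p → ℝ, A Y = ∑ q, Y q * A (Pi.single q 1) := by
    intro Y
    have e : Y = ∑ q, Y q • (Pi.single q (1 : ℝ) : Fin p → ℝ) := by
      funext i
      rw [Finset.sum_apply]
      simp [Pi.single_apply]
    nth_rewrite 1 [e]
    rw [map_sum]
    exact Finset.sum_congr rfl fun q _ => by rw [map_smul, smul_eq_mul]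
  have e1 : ∑ r, mu p s r * A (Yl p (s r)) = ∑ q, (∑ r, mu p s r * Yl p (s r) q) * A (Pi.single q 1) := by
    rw [Finset.sum_congr rfl fun r _ => by rw [hA (Yl p (s r)), Finset.mul_sum]]
    rw [Finset.sum_comm]
    refine Finset.sum_congr rfl fun q _ => ?_
    rw [Finset.sum_mul]
    exact Finset.sum_congr rfl fun r _ => by ring
  rw [e1]
  exact Finset.sum_eq_zero fun q _ => by rw [h he q, zero_mul]

end Pool.Agent.GF
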