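import Pool.Agent.helper65.GD.SpecF

set_option autoImplicit false

namespace Pool.Agent.GD

open Finset Metric Filter Topology

theorem XN1_mono (n k : ℕ) (hk : 3 ≤ k) (hn : k ≤ n / 2) : n.choose 3 ≤ n.choose k := by
  induction k, hk using Nat.le_induction with
  | base => exact le_refl _
  | succ k hk ih =>
    exact (ih (by omega)).trans (Nat.choose_le_succ_of_lt_half_left (by omega))

theorem XN1_num (s : ℕ) (hs : 1 ≤ s) :
    ((((s : ℝ) + 1) ^ 2 + 4 * ((s : ℝ) + 1) - 8) / 3) * ((s : ℝ) + 2) ≤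
      (((2 * s + 4).choose (s + 1) : ℕ) : ℝ) := by
  by_cases h1 : s = 1
  · subst h1
    norm_num [Nat.choose]
  · have h3 := XN1_mono (2 * s + 4) (s + 1) (by omega) (by omega)
    have e1 := Nat.add_one_mul_choose_eq (2 * s + 3) 2
    have e2 := Nat.add_one_mul_choose_eq (2 * s + 2) 1
    rw [Nat.choose_one_right] at e2
    have r1 : ((2 * s + 4 : ℕ) : ℝ) * (((2 * s + 3).choose 2 : ℕ) : ℝ) =
        (((2 * s + 4).choose 3 : ℕ) : ℝ) * 3 := by exact_mod_cast e1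
    have r2 : ((2 * s + 3 : ℕ) : ℝ) * ((2 * s + 2 : ℕ) : ℝ) =
        (((2 * s + 3).choose 2 : ℕ) : ℝ) * 2 := by exact_mod_cast e2
    have r3 : (((2 * s + 4).choose 3 : ℕ) : ℝ) ≤ (((2 * s + 4).choose (s + 1) : ℕ) : ℝ) := by
      exact_mod_cast h3
    have hs' : (1 : ℝ) ≤ (s : ℝ) := by exact_mod_cast hs
    push_cast at r1 r2
    refine le_trans ?_ r3
    generalize (((2 * s + 4).choose 3 : ℕ) : ℝ) = A at r1
    generalize (((2 * s + 3).choose 2 : ℕ) : ℝ) = B at r1 r2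
    have hB : B = (2 * s + 3) * (2 * s + 2) / 2 := by linarith
    rw [hB] at r1
    nlinarith [mul_nonneg (by linarith : (0 : ℝ) ≤ s) (by linarith : (0 : ℝ) ≤ s)]

theorem XN1_AA (j s : ℕ) :
    AA (j + s) (j + s + 1) j * ((j : ℝ) + s + 1) =
      j * (((2 * j + 2 * s + 2).choose (s + 1) : ℕ) : ℝ) := by
  have hc := Nat.choose_mul_factorial_mul_factorial
    (show s + 1 ≤ 2 * j + 2 * s + 2 by omega)
  rw [show 2 * j + 2 * s + 2 - (s + 1) = (2 * j + s) + 1 by omega,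
    show 2 * j + 2 * s + 2 = (2 * j + 2 * s + 1) + 1 by omega,
    Nat.factorial_succ (2 * j + s), Nat.factorial_succ s,
    Nat.factorial_succ (2 * j + 2 * s + 1)] at hc
  unfold AA
  rw [show j + s + 1 + (j + s) = 2 * j + 2 * s + 1 by omega, show j + s - j = s by omega,
    show j + s + j = 2 * j + s by omega, show j + s + 1 - (j + s) - 1 = 0 by omega,
    Nat.factorial_zero]
  have hc' : (((2 * j + 2 * s + 2).choose (s + 1) : ℕ) : ℝ) *
      (((s : ℝ) + 1) * (s.factorial : ℝ)) *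
      ((2 * (j : ℝ) + s + 1) * ((2 * j + s).factorial : ℝ)) =
      (2 * (j : ℝ) + 2 * s + 2) * ((2 * j + 2 * s + 1).factorial : ℝ) := by
    have := congrArg (fun n : ℕ => (n : ℝ)) hc
    push_cast at this
    rw [show 2 * j + 2 * s + 2 = (2 * j + 2 * s + 1) + 1 by omega]
    linear_combination this
  have ha : (0 : ℝ) < (s.factorial : ℝ) := by exact_mod_cast Nat.factorial_pos s
  have hb : (0 : ℝ) < ((2 * j + s).factorial : ℝ) := by exact_mod_cast Nat.factorial_pos _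
  generalize (((2 * j + 2 * s + 2).choose (s + 1) : ℕ) : ℝ) = C at hc'
  generalize ((2 * j + 2 * s + 1).factorial : ℝ) = F at hc'
  generalize (s.factorial : ℝ) = a at hc' ha
  generalize ((2 * j + s).factorial : ℝ) = b at hc' hb
  push_cast
  have h1 : (0 : ℝ) < (s : ℝ) + 1 := by positivity
  have h2 : (0 : ℝ) < 2 * (j : ℝ) + s + 1 := by positivity
  have hd : ((j : ℝ) + s + 1) ^ 2 - (j : ℝ) ^ 2 = ((s : ℝ) + 1) * (2 * j + s + 1) := by ring
  rw [hd]
  have hne : a * b * 1 * (((s : ℝ) + 1) * (2 * j + s + 1)) ≠ 0 := by positivity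
  rw [div_mul_eq_mul_div, div_eq_iff hne]
  linear_combination (-(j : ℝ)) * hc'

theorem XN1 : XN1_stmt := by
  intro p j hj hp
  obtain ⟨s, rfl⟩ : ∃ s, p = j + s := ⟨p - j, by omega⟩
  have hs : 1 ≤ s := by omega
  rw [show j + s + 1 - j = s + 1 by omega]
  push_cast
  have hA := XN1_AA j s
  have hn := XN1_num s hs
  have hC : (((2 * s + 4).choose (s + 1) : ℕ) : ℝ) ≤
      (((2 * j + 2 * s + 2).choose (s + 1) : ℕ) : ℝ) := by
    exact_mod_cast Nat.choose_le_choose (s + 1) (show 2 * s + 4 ≤ 2 * j + 2 * s + 2 by omega)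
  have hj' : (1 : ℝ) ≤ (j : ℝ) := by exact_mod_cast hj
  have hs' : (1 : ℝ) ≤ (s : ℝ) := by exact_mod_cast hs
  generalize (((2 * j + 2 * s + 2).choose (s + 1) : ℕ) : ℝ) = C at hA hC
  generalize (((2 * s + 4).choose (s + 1) : ℕ) : ℝ) = C0 at hn hC
  generalize AA (j + s) (j + s + 1) j = A at hA
  have hpos : (0 : ℝ) < (j : ℝ) + s + 1 := by positivity
  have hX : ((((s : ℝ) + 1) ^ 2 + 4 * ((s : ℝ) + 1) - 8) / 3) * ((j : ℝ) + s + 1) ≤
      A * ((j : ℝ) + s + 1) := by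
    rw [hA]
    by_cases h0 : (0 : ℝ) ≤ (((s : ℝ) + 1) ^ 2 + 4 * ((s : ℝ) + 1) - 8) / 3
    · have h1 : (j : ℝ) + s + 1 ≤ j * (s + 2) := by nlinarith
      calc ((((s : ℝ) + 1) ^ 2 + 4 * ((s : ℝ) + 1) - 8) / 3) * ((j : ℝ) + s + 1)
          ≤ ((((s : ℝ) + 1) ^ 2 + 4 * ((s : ℝ) + 1) - 8) / 3) * (j * (s + 2)) :=
            mul_le_mul_of_nonneg_left h1 h0
        _ = j * (((((s : ℝ) + 1) ^ 2 + 4 * ((s : ℝ) + 1) - 8) / 3) * (s + 2)) := by ring
        _ ≤ j * C := mul_le_mul_of_nonneg_left (hn.trans hC) (by linarith)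
    · exfalso
      apply h0
      nlinarith
  exact le_of_mul_le_mul_right hX hpos

end Pool.Agent.GD
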